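import Pool.Agent.Y716.M.WADefs
import Pool.Agent.Y77.M9.Fin

/-!
# Exceptional multidegree forms near a target (job M11 of helper716)

Written by helper448: the files `Pool.Agent.Y77.M9.Ext`, `Pool.Agent.Y77.M9.Exc` with the targets of
`Pool.Agent.Y716.Q.Extract`, `Pool.Agent.Y716.Q.Exc`, `Pool.Agent.Y716.Q.Exc2`.
-/

namespace Pool.Agent.Y448.M11

open Pool.Agent.Y716.Q Pool.Agent.Y716.M Pool.Agent.Y77.M9

variable {r : ℕ} {n : Fin r → ℕ}

theorem exists_stableT (hr : 1 ≤ r) {w ℓ : ℕ} (hℓ : 1 ≤ ℓ) {f : MvPolynomial (Var n) ℤ} {N : ℕ}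
    {c : Var n → ℤ} (hN : ∀ p a : ℕ, p.Prime → p ^ (a + 1) ∣ N → p ≤ w ∧ a + 1 ≤ ℓ)
    (hfin : ∀ p ∈ primesUpTo w, (∃ x : Var n → ℤ, Norm1 x ∧
      (p : ℤ) ^ (2 * ℓ) ∣ MvPolynomial.eval x f ∧
      ∀ a : ℕ, p ^ a ∣ N → ∀ i, (p : ℤ) ^ a ∣ x i - c i) ∧ ¬ BadAtM (p ^ ℓ) f) :
    ∃ (S J : ℕ) (xc v : Var n → ℤ),
      PDataM w f S J xc v ∧ S * J = (∏ p ∈ primesUpTo w, p) ^ (2 * ℓ) ∧ (N : ℤ) ∣ S ∧
      ∀ i, (N : ℤ) ∣ xc i - c i := by
  classical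
  -- data at the primes
  have hdat : ∀ p ∈ primesUpTo w, ∃ (x : Var n → ℤ) (j : ℕ), Norm1 x ∧
      (p : ℤ) ^ (2 * ℓ) ∣ MvPolynomial.eval x f ∧ j < ℓ ∧
      (∀ i, (p : ℤ) ^ j ∣ MvPolynomial.eval x (MvPolynomial.pderiv i f)) ∧
      (∃ i, ¬ (p : ℤ) ^ (j + 1) ∣ MvPolynomial.eval x (MvPolynomial.pderiv i f)) ∧
      ∀ a : ℕ, p ^ a ∣ N → ∀ i, (p : ℤ) ^ a ∣ x i - c i := by
    intro p hp
    obtain ⟨⟨x, hx, hd, hxN⟩, hb⟩ := hfin p hp
    have : ¬ ∀ i, (p : ℤ) ^ ℓ ∣ MvPolynomial.eval x (MvPolynomial.pderiv i f) := by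
      intro h
      refine hb ⟨x, hx, ?_, ?_⟩
      · push_cast
        exact (pow_dvd_pow (p : ℤ) (by omega)).trans hd
      · intro i
        push_cast
        exact h i
    obtain ⟨j, hj, h1, h2⟩ := grad_level _ this
    exact ⟨x, j, hx, hd, hj, h1, h2, hxN⟩
  choose! xP jP hrP hval hjlt hgr hgr' hxPN using hdat
  have hcopZ : ∀ p ∈ primesUpTo w, ∀ q ∈ primesUpTo w, p ≠ q → ∀ a b : ℕ,
      IsCoprime ((p : ℤ) ^ a) ((q : ℤ) ^ b) := by
    intro p hp q hq hne a b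
    exact (Nat.isCoprime_iff_coprime.mpr (primes_coprime hp hq hne)).pow
  -- Chinese remainder theorem
  have hcrt : ∀ i, ∃ y : ℤ, ∀ p ∈ primesUpTo w, (p : ℤ) ^ (2 * ℓ) ∣ y - xP p i := by
    intro i
    have := Ideal.exists_forall_sub_mem_ideal (R := ℤ)
      (I := fun p : primesUpTo w => Ideal.span {((p : ℕ) : ℤ) ^ (2 * ℓ)}) (by
        intro p q hpq
        simp only [Function.onFun]
        rw [Ideal.isCoprime_span_singleton_iff]
        exact hcopZ _ p.2 _ q.2 (fun h => hpq (Subtype.ext h)) _ _) (fun p => xP p i)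
    obtain ⟨y, hy⟩ := this
    exact ⟨y, fun p hp => Ideal.mem_span_singleton.mp (hy ⟨p, hp⟩)⟩
  choose xc hxc using hcrt
  have hxc' : ∀ p ∈ primesUpTo w, ∀ i, (p : ℤ) ^ (2 * ℓ) ∣ xc i - xP p i := fun p hp i => hxc i p hp
  obtain ⟨S, hS⟩ : ∃ S : ℕ, S = ∏ p ∈ primesUpTo w, p ^ (2 * ℓ - jP p) := ⟨_, rfl⟩
  obtain ⟨J, hJ⟩ : ∃ J : ℕ, J = ∏ p ∈ primesUpTo w, p ^ jP p := ⟨_, rfl⟩
  have hSJ : S * J = (∏ p ∈ primesUpTo w, p) ^ (2 * ℓ) := by
    rw [hS, hJ, ← Finset.prod_mul_distrib, ← Finset.prod_pow]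
    refine Finset.prod_congr rfl (fun p hp => ?_)
    rw [← pow_add]
    congr 1
    have := hjlt p hp
    omega
  have hS0 : 0 < S := by
    rw [hS]
    exact Finset.prod_pos (fun p hp => pow_pos (mem_primesUpTo.mp hp).2.pos _)
  have hJ0 : 0 < J := by
    rw [hJ]
    exact Finset.prod_pos (fun p hp => pow_pos (mem_primesUpTo.mp hp).2.pos _)
  -- gradient at xc
  have hgc : ∀ p ∈ primesUpTo w, ∀ i, (p : ℤ) ^ (2 * ℓ) ∣
      MvPolynomial.eval xc (MvPolynomial.pderiv i f)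
      - MvPolynomial.eval (xP p) (MvPolynomial.pderiv i f) := fun p hp i =>
    Pool.Agent.Y67.HP.eval_congr_dvd' _ (hxc' p hp)
  have hJg : ∀ i, (J : ℤ) ∣ MvPolynomial.eval xc (MvPolynomial.pderiv i f) := by
    intro i
    rw [hJ]
    push_cast
    apply Finset.prod_dvd_of_coprime
    · intro p hp q hq hne
      exact hcopZ p hp q hq hne _ _
    intro p hp
    have h1 := (pow_dvd_pow (p : ℤ) (by have := hjlt p hp; omega : jP p ≤ 2 * ℓ)).trans (hgc p hp i)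
    have := dvd_add h1 (hgr p hp i)
    simpa using this
  choose v hv using hJg
  have hpB : ∀ p : ℕ, p.Prime → p ≤ w → ∀ i : Fin r, ∃ j, ¬ (p : ℤ) ∣ xc ⟨i, j⟩ := by
    intro p hp1 hp2 i
    have hp : p ∈ primesUpTo w := mem_primesUpTo.mpr ⟨hp2, hp1⟩
    obtain ⟨j, hj⟩ := hrP p hp i
    refine ⟨j, fun hd => ?_⟩
    have h1 := (dvd_pow_self (p : ℤ) (by omega : 2 * ℓ ≠ 0)).trans (hxc' p hp ⟨i, j⟩)
    rw [hj] at h1
    have := dvd_sub hd h1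
    rw [sub_sub_cancel] at this
    have h3 : (p : ℕ) ∣ 1 := by exact_mod_cast this
    exact hp1.one_lt.ne' (Nat.dvd_one.mp h3)
  have hNS : (N : ℤ) ∣ S := by
    apply dvd_of_prime_pow
    intro p a hp ha
    obtain _ | a := a
    · rw [pow_zero]; exact one_dvd _
    obtain ⟨h1, h2⟩ := hN p a hp ha
    have hpw : p ∈ primesUpTo w := mem_primesUpTo.mpr ⟨h1, hp⟩
    have h3 := hjlt p hpw
    have h4 : p ^ (a + 1) ∣ S := by
      rw [hS]
      refine (pow_dvd_pow p (by omega : a + 1 ≤ 2 * ℓ - jP p)).trans ?_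
      exact Finset.dvd_prod_of_mem (fun p => p ^ (2 * ℓ - jP p)) hpw
    exact_mod_cast h4
  have hNx : ∀ i, (N : ℤ) ∣ xc i - c i := by
    intro i
    apply dvd_of_prime_pow
    intro p a hp ha
    obtain _ | a := a
    · rw [pow_zero]; exact one_dvd _
    obtain ⟨h1, h2⟩ := hN p a hp ha
    have hpw : p ∈ primesUpTo w := mem_primesUpTo.mpr ⟨h1, hp⟩
    have h3 := (pow_dvd_pow (p : ℤ) (by omega : a + 1 ≤ 2 * ℓ)).trans (hxc' p hpw i)
    have h4 := hxPN p hpw (a + 1) ha i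
    have := dvd_add h3 h4
    simpa using this
  refine ⟨S, J, xc, v, ⟨?_, hpB⟩, hSJ, hNS, hNx⟩
  refine { hS := hS0, hJ := hJ0, hJS := ?_, hval := ?_, hgrad := hv, hPJ := ?_, hv := ?_,
           hprim := ?_, hSW := ?_ }
  · rw [hS, hJ]
    apply Finset.prod_dvd_prod_of_dvd
    intro p hp
    have := hjlt p hp
    exact pow_dvd_pow p (by omega)
  · rw [hSJ, ← Finset.prod_pow]
    push_cast
    apply Finset.prod_dvd_of_coprime
    · intro p hp q hq hne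
      exact hcopZ p hp q hq hne _ _
    intro p hp
    have := dvd_add (Pool.Agent.Y67.HP.eval_congr_dvd' f (hxc' p hp)) (hval p hp)
    simpa using this
  · intro p hp1 hp2
    have hp : p ∈ primesUpTo w := mem_primesUpTo.mpr ⟨hp2, hp1⟩
    rw [hS, hJ, ← Finset.mul_prod_erase _ _ hp, ← Finset.mul_prod_erase _ _ hp, ← mul_assoc,
      ← pow_succ']
    have hjP := hjlt p hp
    apply mul_dvd_mul
    · exact pow_dvd_pow p (by omega)
    · apply Finset.prod_dvd_prod_of_dvd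
      intro q hq
      have := hjlt q (Finset.mem_of_mem_erase hq)
      exact pow_dvd_pow q (by omega)
  · intro p hp1 hp2
    have hp : p ∈ primesUpTo w := mem_primesUpTo.mpr ⟨hp2, hp1⟩
    obtain ⟨i, hi⟩ := hgr' p hp
    refine ⟨i, fun hd => hi ?_⟩
    have hjP := hjlt p hp
    have h1 : (p : ℤ) ^ (jP p + 1) ∣ MvPolynomial.eval xc (MvPolynomial.pderiv i f) := by
      rw [hv i, pow_succ]
      apply mul_dvd_mul _ hd
      rw [hJ]
      push_cast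
      exact Finset.dvd_prod_of_mem (fun p : ℕ => (p : ℤ) ^ jP p) hp
    have h2 := (pow_dvd_pow (p : ℤ) (by omega : jP p + 1 ≤ 2 * ℓ)).trans (hgc p hp i)
    have := dvd_sub h1 h2
    simpa using this
  · intro p hp1 hp2
    obtain ⟨j, hj⟩ := hpB p hp1 hp2 ⟨0, hr⟩
    exact ⟨_, hj⟩
  · intro p hp1 hpS
    rw [hS] at hpS
    obtain ⟨q, hq, hpq⟩ := (Prime.dvd_finset_prod_iff hp1.prime _).mp hpS
    have h1 := hp1.dvd_of_dvd_pow hpq
    have h2 := (mem_primesUpTo.mp hq)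
    have h3 := (Nat.prime_dvd_prime_iff_eq hp1 h2.2).mp h1
    rw [h3]; exact h2.1

/-- non-degenerate local data -/
def GoodT (w : ℕ) (γ H : ℝ) (Q N : ℕ) (c : Var n → ℤ) (ζ : Var n → ℝ) (δ : ℝ)
    (f : MvPolynomial (Var n) ℤ) : Prop :=
  ∃ (S J : ℕ) (xc v : Var n → ℤ) (ξ : Var n → ℝ) (i₀ : Var n), PDataM w f S J xc v ∧
    S * J = Q ∧ (N : ℤ) ∣ S ∧ (∀ i, (N : ℤ) ∣ xc i - c i) ∧ Norm1 ξ ∧ (∀ i, |ξ i| ≤ 1) ∧
    (∀ i, |ξ i - ζ i| ≤ δ) ∧
    MvPolynomial.aeval ξ f = 0 ∧ 2 * γ * H ≤ |MvPolynomial.aeval ξ (MvPolynomial.pderiv i₀ f)|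

/-- the data of a class -/
def ClassT (d : Fin r → ℕ) (w : ℕ) (γ η H : ℝ) (Q N : ℕ) (c : Var n → ℤ) (ζ : Var n → ℝ) (δ : ℝ)
    (f : MvPolynomial (Var n) ℤ) : Prop :=
  ∃ (S J : ℕ) (xc v : Var n → ℤ) (ξ : Var n → ℝ) (i₀ : Var n), PDataM w f S J xc v ∧
    S * J = Q ∧ (N : ℤ) ∣ S ∧ (∀ i, (N : ℤ) ∣ xc i - c i) ∧ (∀ i, |ξ i - ζ i| ≤ δ) ∧
    RDataM d H γ η f ξ i₀

theorem GoodT.shift {d : Fin r → ℕ} {e w : ℕ} (he : ∑ i, d i = e + 2) {γ η H Cf : ℝ} {Q N : ℕ}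
    {c : Var n → ℤ} {ζ : Var n → ℝ} {δ : ℝ}
    {f g : MvPolynomial (Var n) ℤ} (hQ : 1 ≤ Q) (h : GoodT w γ H Q N c ζ δ f) (hH : 0 ≤ H) (hη : 0 ≤ η)
    (hη1 : η ≤ 1)
    (hCf : ∀ (f : MvPolynomial (Var n) ℤ) (R : ℝ), IsF (e + 1) R f →
      ∀ x : Var n → ℝ, (∀ i, |x i| ≤ 1) → |MvPolynomial.aeval x f| ≤ Cf * R)
    (hηC : Cf * (e + 2) * η ≤ γ) (hf : IsM d H f) (hg : IsM d (η * H / Q) g) :
    ClassT d w γ η H Q N c ζ δ (f - MvPolynomial.C (Q : ℤ) * g) := by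
  obtain ⟨S, J, xc, v, ξ, i₀, h1, h2, h3, h4, h5, h6, h7, h8, h9⟩ := h
  obtain ⟨v', hv'⟩ := shiftM h1 (-g)
  rw [mem'_neg f g h2] at hv'
  have hQr : (0:ℝ) < Q := by exact_mod_cast hQ
  have hQA : |((Q : ℤ) : ℝ)| * (η * H / Q) = η * H := by
    rw [Int.cast_natCast, abs_of_pos hQr]
    field_simp
  have hQg : IsM d (η * H) (MvPolynomial.C (Q : ℤ) * g) := by
    have := hg.C_mul (Q : ℤ)
    rwa [hQA] at this
  have hηH : η * H ≤ H := mul_le_of_le_one_left hH hη1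
  refine ⟨S, J, xc, v', ξ, i₀, hv', h2, h3, h4, h7, ?_⟩
  refine ⟨(hf.sub hQg).mono (by linarith), h6, h5, ?_, ?_⟩
  · rw [map_sub, h8, zero_sub, abs_neg]
    exact aeval_le_oneM hQg h6
  · rw [map_sub, map_sub]
    have h10 := hCf _ _ ((isM_toF hQg he).pderiv i₀) ξ h6
    have h11 := abs_sub_abs_le_abs_sub (MvPolynomial.aeval ξ (MvPolynomial.pderiv i₀ f))
      (MvPolynomial.aeval ξ (MvPolynomial.pderiv i₀ (MvPolynomial.C (Q : ℤ) * g)))
    have h12 : Cf * (((e + 1 : ℕ) : ℝ) + 1) * (η * H) ≤ γ * H := by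
      have := mul_le_mul_of_nonneg_right hηC hH
      push_cast
      linarith
    push_cast at h10 h12
    linarith

open scoped Classical in
/-- averaging over the classes -/
theorem avg_countT {d : Fin r → ℕ} {e w : ℕ} (he : ∑ i, d i = e + 2) {γ η H Cf : ℝ} {Q N : ℕ}
    {c : Var n → ℤ} {ζ : Var n → ℝ} {δ : ℝ}
    (hQ : 1 ≤ Q) (hH : 0 ≤ H) (hη : 0 ≤ η) (hη1 : η ≤ 1)
    (hCf : ∀ (f : MvPolynomial (Var n) ℤ) (R : ℝ), IsF (e + 1) R f →
      ∀ x : Var n → ℝ, (∀ i, |x i| ≤ 1) → |MvPolynomial.aeval x f| ≤ Cf * R)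
    (hηC : Cf * (e + 2) * η ≤ γ) (q : MvPolynomial (Var n) ℤ → Prop) {ε : ℝ} (hε : 0 ≤ ε)
    (hcl : ∀ f, ClassT d w γ η H Q N c ζ δ f →
      (((formsM n d (η * H / Q)).filter (fun g =>
        q (f + MvPolynomial.C (Q : ℤ) * g))).card : ℝ) ≤
        ε * (formsM n d (η * H / Q)).card) :
    (((formsM n d H).filter (fun f => GoodT w γ H Q N c ζ δ f ∧ q f)).card : ℝ) ≤
      ε * (formsM n d (2 * H)).card := by
  obtain ⟨G', hG'⟩ : ∃ G', G' = formsM n d (η * H / Q) := ⟨_, rfl⟩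
  rw [← hG'] at hcl
  have hQr : (0:ℝ) < Q := by exact_mod_cast hQ
  have hA0 : 0 ≤ η * H / Q := by positivity
  have hG0 : (0:ℝ) < G'.card := by
    rw [hG']; exact_mod_cast card_formsM_pos (n := n) d hA0
  have h1 : ((formsM n d H).filter (fun f => GoodT w γ H Q N c ζ δ f ∧ q f)).card *
      G'.card ≤
      ∑ f ∈ (formsM n d (2 * H)).filter (fun f => ClassT d w γ η H Q N c ζ δ f),
        (G'.filter (fun g => q (f + MvPolynomial.C (Q : ℤ) * g))).card := by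
    rw [← Finset.card_product, ← Finset.card_sigma]
    apply Finset.card_le_card_of_injOn
      (fun r => (⟨r.1 - MvPolynomial.C (Q : ℤ) * r.2, r.2⟩ :
        (_ : MvPolynomial (Var n) ℤ) × MvPolynomial (Var n) ℤ))
    · rintro ⟨f, g⟩ hr
      simp only [Finset.coe_product, Set.mem_prod, Finset.mem_coe, Finset.mem_filter] at hr
      obtain ⟨⟨h1, h2, h3⟩, h4⟩ := hr
      simp only [Finset.mem_coe, Finset.mem_sigma, Finset.mem_filter]
      have hg : IsM d (η * H / Q) g := by rw [hG'] at h4; exact mem_formsM.mp h4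
      have hcd := h2.shift he hQ hH hη hη1 hCf hηC (mem_formsM.mp h1) hg
      refine ⟨⟨mem_formsM.mpr ?_, hcd⟩, h4, ?_⟩
      · obtain ⟨S, J, xc, v, ξ, i₀, _, _, _, _, _, h⟩ := hcd
        exact h.hform
      · have : f - MvPolynomial.C (Q : ℤ) * g + MvPolynomial.C (Q : ℤ) * g = f := by ring
        rw [this]
        exact h3
    · rintro ⟨f, g⟩ _ ⟨f', g'⟩ _ heq
      simp only [Sigma.mk.injEq] at heq
      obtain ⟨h1, h2⟩ := heq
      have h2' : g = g' := eq_of_heq h2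
      subst h2'
      have : f = f' := sub_left_injective h1
      rw [this]
  have h2 : (((formsM n d H).filter (fun f => GoodT w γ H Q N c ζ δ f ∧ q f)).card : ℝ) *
      G'.card ≤ (ε * (formsM n d (2 * H)).card) * G'.card := by
    have h3 := (Nat.cast_le (α := ℝ)).mpr h1
    push_cast at h3
    refine h3.trans ?_
    calc _ ≤ ((formsM n d (2 * H)).filter
            (fun f => ClassT d w γ η H Q N c ζ δ f)).card • (ε * (G'.card : ℝ)) :=
          Finset.sum_le_card_nsmul _ _ _ (fun f hf => hcl f (Finset.mem_filter.mp hf).2)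
      _ = (((formsM n d (2 * H)).filter
            (fun f => ClassT d w γ η H Q N c ζ δ f)).card : ℝ) * (ε * (G'.card : ℝ)) := by
          rw [nsmul_eq_mul]
      _ ≤ ((formsM n d (2 * H)).card : ℝ) * (ε * (G'.card : ℝ)) := by
          apply mul_le_mul_of_nonneg_right _ (by positivity)
          exact_mod_cast Finset.card_filter_le _ _
      _ = _ := by ring
  exact le_of_mul_le_mul_right h2 hG0

theorem solT_of_zeroNear {η₀ δ : ℝ} {ξ ζ : Var n → ℝ} {S N : ℕ} {xc c : Var n → ℤ}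
    {f : MvPolynomial (Var n) ℤ}
    (h : ZeroNearM η₀ ξ S xc f) (hη : η₀ ≤ δ) (hNS : (N : ℤ) ∣ S) (hNx : ∀ i, (N : ℤ) ∣ xc i - c i)
    (hζ : ∀ i, |ξ i - ζ i| ≤ δ) : SolTM N c ζ δ f := by
  obtain ⟨x, h1, h2, h3, Λ, hΛ, h4⟩ := h
  refine ⟨x, h1, h2, fun i => ?_, Λ, hΛ, fun i => ?_⟩
  · have := dvd_add (hNS.trans (h3 i)) (hNx i)
    simpa using this
  · have h5 : |(x i : ℝ) - Λ i.1 * ζ i| ≤ |(x i : ℝ) - Λ i.1 * ξ i| + |Λ i.1 * (ξ i - ζ i)| := by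
      have : (x i : ℝ) - Λ i.1 * ζ i = ((x i : ℝ) - Λ i.1 * ξ i) + Λ i.1 * (ξ i - ζ i) := by ring
      rw [this]
      exact abs_add_le _ _
    rw [abs_mul, abs_of_pos (hΛ i.1)] at h5
    have h6 := mul_le_mul_of_nonneg_left (hζ i) (hΛ i.1).le
    have h7 := mul_le_mul_of_nonneg_right hη (hΛ i.1).le
    have h8 := h4 i
    linarith

open scoped Classical in
/-- Almost all forms with approximate zeros at all places near a target have an integral zero near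
the target. -/
theorem exc_countT (hr : 1 ≤ r) {d : Fin r → ℕ} (hd : ∀ i, 2 ≤ d i) (hcl : ClassStmtM n d)
    {N : ℕ} (hN : 1 ≤ N) (c : Var n → ℤ) (ζ : Var n → ℝ) {δ : ℝ} (hδ : 0 < δ)
    {ε : ℝ} (hε : 0 < ε) : ∃ H₀ : ℝ, ∀ H : ℝ, H₀ ≤ H →
    (((formsM n d H).filter (fun f => LocSolTM N c ζ δ f ∧ ¬ SolTM N c ζ δ f)).card : ℝ) ≤
        ε * (formsM n d H).card := by
  have hd1 : ∀ i, 1 ≤ d i := fun i => by have := hd i; omega
  obtain ⟨e, he⟩ : ∃ e, ∑ i, d i = e + 2 := by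
    have h1 : d ⟨0, hr⟩ ≤ ∑ i, d i :=
      Finset.single_le_sum (f := d) (fun i _ => Nat.zero_le _) (Finset.mem_univ _)
    have h2 := hd ⟨0, hr⟩
    exact ⟨∑ i, d i - 2, by omega⟩
  obtain ⟨M, hM⟩ : ∃ M, (monsM n d).card = M := ⟨_, rfl⟩
  obtain ⟨k, hk⟩ : ∃ k, ∏ i, (n i + 1) = k := ⟨_, rfl⟩
  have hM0 : (0:ℝ) < 3 ^ M := by positivity
  obtain ⟨w₀, hw₀1, hcl⟩ := hcl (ε / (4 * 3 ^ M)) (by positivity)
  obtain ⟨w, hw⟩ : ∃ w, w = w₀ + N := ⟨_, rfl⟩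
  obtain ⟨Cb, hCb0, hCb⟩ := Pool.Agent.Y362.MH.bad_count_M_real n d hd1
  obtain ⟨Cf, hCf1, hCf⟩ := form_bounds (ι := Var n) (e + 1)
  have hCf0 : 0 < Cf := by linarith
  have hCf' : ∀ (f : MvPolynomial (Var n) ℤ) (R : ℝ), IsF (e + 1) R f →
      ∀ x : Var n → ℝ, (∀ i, |x i| ≤ 1) → |MvPolynomial.aeval x f| ≤ Cf * R := by
    intro f R hf x hx
    have := (hCf f R hf.1 hf.2 1 (by norm_num)).1 x hx
    rwa [one_pow, mul_one] at this
  obtain ⟨γ₂, hγ₂⟩ : ∃ γ₂ : ℝ, γ₂ = min 1 (ε / (4 * Cb * 3 ^ M)) := ⟨_, rfl⟩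
  have hγ₂0 : 0 < γ₂ := by rw [hγ₂]; exact lt_min one_pos (by positivity)
  have hγ₂1 : γ₂ ≤ 1 := by rw [hγ₂]; exact min_le_left _ _
  have hγ₂C : Cb * γ₂ ^ 2 * 3 ^ M ≤ ε / 4 := by
    have h1 : γ₂ ≤ ε / (4 * Cb * 3 ^ M) := by rw [hγ₂]; exact min_le_right _ _
    have h2 : γ₂ ^ 2 ≤ γ₂ := by
      rw [sq]; exact mul_le_of_le_one_left hγ₂0.le hγ₂1
    rw [le_div_iff₀ (by positivity)] at h1
    have h3 : Cb * 3 ^ M * γ₂ ^ 2 ≤ Cb * 3 ^ M * γ₂ := mul_le_mul_of_nonneg_left h2 (by positivity)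
    linarith
  obtain ⟨γ, hγ⟩ : ∃ γ : ℝ, γ = γ₂ / 2 := ⟨_, rfl⟩
  have hγ0 : 0 < γ := by rw [hγ]; positivity
  have hγ1 : γ ≤ 1 := by linarith
  obtain ⟨ℓ₀, hℓ₀⟩ : ∃ ℓ₀ : ℕ, (1 / 2 : ℝ) ^ ℓ₀ < ε / (4 * ((w + 1) * k * 3 ^ M) + 1) :=
    exists_pow_lt_of_lt_one (by positivity) (by norm_num)
  obtain ⟨ℓ, hℓ⟩ : ∃ ℓ : ℕ, ℓ = ℓ₀ + N := ⟨_, rfl⟩
  have hℓ1 : 1 ≤ ℓ := by omega
  have hℓε : (1 / 2 : ℝ) ^ ℓ * ((w + 1) * k * 3 ^ M) ≤ ε / 4 := by
    have h1 : (1 / 2 : ℝ) ^ ℓ ≤ (1 / 2) ^ ℓ₀ :=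
      pow_le_pow_of_le_one (by norm_num) (by norm_num) (by omega)
    have h2 : (0:ℝ) ≤ (w + 1) * k * 3 ^ M := by positivity
    have h3 := h1.trans hℓ₀.le
    rw [le_div_iff₀ (by positivity)] at h3
    have h4 : (0:ℝ) ≤ (1 / 2) ^ ℓ := by positivity
    linarith
  obtain ⟨Q, hQ⟩ : ∃ Q : ℕ, Q = (∏ p ∈ primesUpTo w, p) ^ (2 * ℓ) := ⟨_, rfl⟩
  have hQ1 : 1 ≤ Q := by
    rw [hQ]
    exact pow_pos (Finset.prod_pos (fun p hp => (mem_primesUpTo.mp hp).2.pos)) _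
  obtain ⟨η₀, hη₀⟩ : ∃ η₀ : ℝ, η₀ = min δ (γ / (Cf * (e + 2))) := ⟨_, rfl⟩
  have hη₀0 : 0 < η₀ := by rw [hη₀]; exact lt_min hδ (by positivity)
  have hη₀δ : η₀ ≤ δ := by rw [hη₀]; exact min_le_left _ _
  have hη₀γ : η₀ ≤ γ / (Cf * (e + 2)) := by rw [hη₀]; exact min_le_right _ _
  obtain ⟨η, hη0, hη1, hηη₀, H₁, hH₁⟩ := hcl w (by omega) γ hγ0 hγ1 Q hQ1 η₀ hη₀0
  have hηC : Cf * (e + 2) * η ≤ γ := by
    have h1 := hηη₀.trans hη₀γ
    rw [le_div_iff₀ (by positivity)] at h1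
    linarith
  refine ⟨max (max H₁ 2) (max (1 / γ₂ ^ 2) ((w : ℝ) ^ ℓ)), fun H hH => ?_⟩
  have hH1 : H₁ ≤ H := (le_max_left _ _).trans ((le_max_left _ _).trans hH)
  have hH2 : 2 ≤ H := (le_max_right _ _).trans ((le_max_left _ _).trans hH)
  have hH3 : 1 / γ₂ ^ 2 ≤ H := (le_max_left _ _).trans ((le_max_right _ _).trans hH)
  have hH4 : (w : ℝ) ^ ℓ ≤ H := (le_max_right _ _).trans ((le_max_right _ _).trans hH)
  have hH0 : 0 < H := by linarith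
  obtain ⟨G, hG⟩ : ∃ G : ℝ, ((formsM n d H).card : ℝ) = G := ⟨_, rfl⟩
  have hG0 : 0 < G := by
    rw [← hG]
    exact_mod_cast card_formsM_pos (n := n) d hH0.le
  have h2H : ((formsM n d (2 * H)).card : ℝ) ≤ 3 ^ M * G := by
    have := card_formsM_upper (n := n) d (A := H) (R := 2 * H) (c := 3)
      (by linarith) (by linarith) (by norm_num) (by linarith)
    rwa [hM, hG] at this
  -- good forms
  have hgood : (((formsM n d H).filter (fun f => GoodT w γ H Q N c ζ δ f ∧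
      ¬ SolTM N c ζ δ f)).card : ℝ) ≤ ε / 4 * G := by
    have h1 := avg_countT (n := n) (d := d) (e := e) (w := w) he (γ := γ) (η := η) (H := H)
      (Cf := Cf) (Q := Q) (N := N) (c := c) (ζ := ζ) (δ := δ) hQ1 hH0.le hη0.le hη1 hCf' hηC
      (fun f => ¬ SolTM N c ζ δ f)
      (ε := ε / (4 * 3 ^ M)) (by positivity) (by
        rintro f ⟨S, J, xc, v, ξ, i₀, h1, h2, h3, h4, h5, h6⟩
        have h7 := hH₁ H hH1 f S J xc v ξ i₀ h1 h6 h2.le
        rw [h2] at h7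
        refine (card_filter_le' _ _ _ (fun g _ hg hz => hg ?_)).trans h7
        have h9 := solT_of_zeroNear hz hη₀δ h3 h4 h5
        unfold mem' at h9
        rwa [h2] at h9)
    refine (card_filter_le' _ _ _ (fun _ _ h => h)).trans (h1.trans ?_)
    have h2 := mul_le_mul_of_nonneg_left h2H (by positivity : 0 ≤ ε / (4 * 3 ^ M))
    refine h2.trans (le_of_eq ?_)
    field_simp
  -- degenerate real zeros
  have hbadR : (((formsM n d H).filter (fun f => BadRM γ₂ H f)).card : ℝ) ≤ ε / 4 * G := by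
    have h1 := hCb γ₂ H hγ₂0 hγ₂1 (by
      rw [div_le_iff₀ (by positivity)] at hH3
      linarith)
    have h2 : (((formsM n d H).filter (fun f => BadRM γ₂ H f)).card : ℝ) ≤
        Cb * γ₂ ^ 2 * (formsM n d (2 * H)).card :=
      (card_filter_le' _ _ _ (fun _ _ h => h)).trans h1
    have h3 := mul_le_mul_of_nonneg_left h2H (by positivity : 0 ≤ Cb * γ₂ ^ 2)
    have h4 := mul_le_mul_of_nonneg_right hγ₂C hG0.le
    linarith
  -- degenerate zeros modulo prime powers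
  have hbadP : ∀ p ∈ primesUpTo w, (((formsM n d H).filter
      (fun f => BadAtM (p ^ ℓ) f)).card : ℝ) ≤ (1 / 2 : ℝ) ^ ℓ * (k * (3 ^ M * G)) := by
    intro p hp
    obtain ⟨hp1, hp2⟩ := mem_primesUpTo.mp hp
    have h1 := Pool.Agent.Y362.MH.bad_count_M_int (n := n) hd1 (p ^ ℓ)
      (Nat.pos_of_ne_zero (pow_ne_zero _ hp2.ne_zero)) H hH0.le
    have h2 : (((formsM n d H).filter (fun f => BadAtM (p ^ ℓ) f)).card : ℝ) *
        ((p ^ ℓ : ℕ) : ℝ) ≤ k * ((formsM n d (H + (p ^ ℓ : ℕ))).card : ℝ) := by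
      rw [← hk]
      have h1' := (Nat.cast_le (α := ℝ)).mpr h1
      rw [Nat.cast_mul, Nat.cast_mul] at h1'
      exact (mul_le_mul_of_nonneg_right (card_filter_le' _ _ _ (fun _ _ h => h))
        (Nat.cast_nonneg _)).trans h1'
    have h3 : ((p ^ ℓ : ℕ) : ℝ) ≤ H := by
      refine le_trans ?_ hH4
      push_cast
      apply pow_le_pow_left₀ (Nat.cast_nonneg _)
      exact_mod_cast hp1
    have h4 : ((formsM n d (H + (p ^ ℓ : ℕ))).card : ℝ) ≤ 3 ^ M * G := by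
      refine le_trans ?_ h2H
      exact_mod_cast Finset.card_le_card (formsM_mono (by linarith))
    have h5 : (2:ℝ) ^ ℓ ≤ ((p ^ ℓ : ℕ) : ℝ) := by
      push_cast
      apply pow_le_pow_left₀ (by norm_num)
      exact_mod_cast hp2.two_le
    have h6 : (((formsM n d H).filter (fun f => BadAtM (p ^ ℓ) f)).card : ℝ) * 2 ^ ℓ ≤
        k * (3 ^ M * G) :=
      (mul_le_mul_of_nonneg_left h5 (Nat.cast_nonneg _)).trans
        (h2.trans (mul_le_mul_of_nonneg_left h4 (Nat.cast_nonneg _)))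
    rw [one_div, inv_pow, inv_mul_eq_div, le_div_iff₀ (by positivity)]
    exact h6
  -- covering
  have hcov : (formsM n d H).filter (fun f => LocSolTM N c ζ δ f ∧ ¬ SolTM N c ζ δ f) ⊆
      ((formsM n d H).filter (fun f => GoodT w γ H Q N c ζ δ f ∧ ¬ SolTM N c ζ δ f)) ∪
      ((primesUpTo w).biUnion (fun p => (formsM n d H).filter (fun f => BadAtM (p ^ ℓ) f)) ∪
      (formsM n d H).filter (fun f => BadRM γ₂ H f)) := by
    intro f hf
    obtain ⟨hf1, hf2, hf3⟩ := Finset.mem_filter.mp hf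
    rw [Finset.mem_union, Finset.mem_union, Finset.mem_biUnion, Finset.mem_filter,
      Finset.mem_filter]
    by_cases hbf : ∃ p ∈ primesUpTo w, BadAtM (p ^ ℓ) f
    · obtain ⟨p, hp, hb⟩ := hbf
      right; left
      exact ⟨p, hp, Finset.mem_filter.mpr ⟨hf1, hb⟩⟩
    by_cases hbr : BadRM γ₂ H f
    · right; right; exact ⟨hf1, hbr⟩
    left
    refine ⟨hf1, ?_, hf3⟩
    push Not at hbf
    obtain ⟨S, J, xc, v, h1, h2, h3, h4⟩ := exists_stableT hr (w := w) (ℓ := ℓ) (f := f) (N := N)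
      (c := c) hℓ1 (prime_pow_cond hN (by omega) (by omega))
      (fun p hp => ⟨hf2.1 p (mem_primesUpTo.mp hp).2 _, hbf p hp⟩)
    obtain ⟨ξ, hξr, hξ1, hξζ, hξ0⟩ := hf2.2
    have h5 : ∃ i₀, γ₂ * H ≤ |MvPolynomial.aeval ξ (MvPolynomial.pderiv i₀ f)| := by
      by_contra hcon
      push Not at hcon
      apply hbr
      refine ⟨ξ, hξr, hξ1, ?_, fun i => (hcon i).le⟩
      rw [hξ0, abs_zero]; positivity
    obtain ⟨i₀, hi₀⟩ := h5
    refine ⟨S, J, xc, v, ξ, i₀, h1, by rw [h2, hQ], h3, h4, hξr, hξ1, hξζ, hξ0, ?_⟩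
    have : 2 * γ * H = γ₂ * H := by rw [hγ]; ring
    rw [this]; exact hi₀
  have h1 : (((formsM n d H).filter
      (fun f => LocSolTM N c ζ δ f ∧ ¬ SolTM N c ζ δ f)).card : ℝ) ≤
      (((formsM n d H).filter (fun f => GoodT w γ H Q N c ζ δ f ∧
        ¬ SolTM N c ζ δ f)).card : ℝ) +
      ((∑ p ∈ primesUpTo w, (((formsM n d H).filter (fun f => BadAtM (p ^ ℓ) f)).card : ℝ)) +
      (((formsM n d H).filter (fun f => BadRM γ₂ H f)).card : ℝ)) := by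
    have h2 := (Finset.card_le_card hcov).trans ((Finset.card_union_le _ _).trans
      (Nat.add_le_add_left ((Finset.card_union_le _ _).trans
        (Nat.add_le_add_right Finset.card_biUnion_le _)) _))
    exact_mod_cast h2
  have h2 : (∑ p ∈ primesUpTo w, (((formsM n d H).filter
      (fun f => BadAtM (p ^ ℓ) f)).card : ℝ)) ≤ ε / 4 * G := by
    calc _ ≤ (primesUpTo w).card • ((1 / 2 : ℝ) ^ ℓ * (k * (3 ^ M * G))) :=
          Finset.sum_le_card_nsmul _ _ _ hbadP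
      _ = ((primesUpTo w).card : ℝ) * ((1 / 2 : ℝ) ^ ℓ * (k * (3 ^ M * G))) := by
          rw [nsmul_eq_mul]
      _ ≤ (w + 1) * ((1 / 2 : ℝ) ^ ℓ * (k * (3 ^ M * G))) := by
          apply mul_le_mul_of_nonneg_right _ (by positivity)
          have : (primesUpTo w).card ≤ w + 1 := by
            unfold primesUpTo
            refine (Finset.card_filter_le _ _).trans ?_
            rw [Finset.card_range]
          exact_mod_cast this
      _ = ((1 / 2 : ℝ) ^ ℓ * ((w + 1) * k * 3 ^ M)) * G := by ring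
      _ ≤ ε / 4 * G := mul_le_mul_of_nonneg_right hℓε hG0.le
  rw [hG]
  have h3 : 0 < ε * G := by positivity
  linarith

/-- **Job M11.** -/
theorem exc_target {r : ℕ} (n d : Fin r → ℕ) (hr : 1 ≤ r) (hd : ∀ i, 2 ≤ d i)
    (hcl : ClassStmtM n d) : ExcStmtM n d := fun _ hN c ζ _ hδ _ hε =>
  exc_countT hr hd hcl hN c ζ hδ hε

end Pool.Agent.Y448.M11
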